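import Mathlib.Analysis.SpecialFunctions.Trigonometric.Cotangent
import Pool.Agent.MP_2ab689_gt.Limit

/-!
Eleven vertices: tables of multipliers and the extremal combinatorial type.
-/

namespace Pool.Agent.MP_2ab689_gt.E11

open Real

/-- The label of a degree. -/
def lab (d : ℕ) : ℕ := cond (Nat.ble d 4) 0 (cond (Nat.beq d 5) 1 2)

/-- The angle multiplier of a label, in units of `1 / 100000`. -/
def muN (l : ℕ) : ℕ := cond (Nat.beq l 0) 42775 (cond (Nat.beq l 1) 52722 63374)

/-- The face constant of three labels, in units of `1 / 100000`. -/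
def gN (a b c : ℕ) : ℕ :=
  [82500, 95300, 107000, 95300, 108290, 120117, 107000, 120117, 130965,
    95300, 108290, 120117, 108290, 122058, 134833, 120117, 134833, 147800,
    107000, 120117, 130965, 120117, 134833, 147800, 130965, 147800, 162000].getD
    (9 * a + 3 * b + c) 0

/-- The face inequality. -/
def FaceOK (m₁ m₂ m₃ g : ℝ) : Prop := ∀ e a b c : ℝ, 0 < e → 0 < a → 0 < b → 0 < c →
  e + a + b + c = π →
  400000 ≤ (m₁ * (a + e) + m₂ * (b + e) + m₃ * (c + e) - g) * (cot e + cot a + cot b + cot c)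

/-- The face inequalities for all triples of labels. -/
def FaceS : Prop := ∀ a < 3, ∀ b < 3, ∀ c < 3, FaceOK (muN a) (muN b) (muN c) (gN a b c)

/-- The extremal combinatorial type. -/
def T0 : List (ℕ × ℕ × ℕ) :=
  [(0, 1, 3), (0, 3, 4), (0, 4, 2), (0, 2, 5), (0, 5, 6), (0, 6, 1), (1, 6, 9), (1, 9, 3),
    (6, 5, 8), (6, 8, 9), (9, 8, 7), (9, 7, 3), (3, 7, 4), (4, 10, 2), (5, 2, 10), (5, 10, 8),
    (8, 10, 7), (7, 10, 4)]

/-- Six times the signed volume of the extremal type. -/
noncomputable def Phi (P : ℕ → V) : ℝ := (T0.map fun f => det3 (P f.1) (P f.2.1) (P f.2.2)).sum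

end Pool.Agent.MP_2ab689_gt.E11
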