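import Pool.Agent.MP_2ab689_gt.E11.Tan

/-!
A checker for the face inequalities.
-/

namespace Pool.Agent.MP_2ab689_gt.E11

open Real

/-- A chain of slabs. -/
def chain : ℚ → List (ℚ × ℚ × ℚ) → Bool
  | _, [] => false
  | l, x :: r => decide (0 ≤ x.2.2) && decide (4 ≤ l * (x.2.1 - x.2.2 * l)) &&
      (decide (x.2.2 = 0) ||
        (decide (l < x.1) && decide (4 ≤ x.1 * (x.2.1 - x.2.2 * x.1)) && chain x.1 r))

theorem chain_sound {L S : ℝ} (C : List (ℚ × ℚ × ℚ)) : ∀ l : ℚ, (0 : ℝ) < l → (l : ℝ) ≤ L →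
    (∀ x ∈ C, (x.2.1 : ℝ) - x.2.2 * L ≤ S) → chain l C = true → 4 ≤ L * S := by
  induction C with
  | nil => intro l _ _ _ h; exact absurd h Bool.false_ne_true
  | cons x r ih =>
    obtain ⟨l', a, b⟩ := x
    intro l h0 h1 h2 h
    simp only [chain, Bool.and_eq_true, Bool.or_eq_true, decide_eq_true_iff] at h
    obtain ⟨⟨k1, k2⟩, k3⟩ := h
    have k1' : (0 : ℝ) ≤ b := by exact_mod_cast k1
    have k2' : (4 : ℝ) ≤ l * (a - b * l) := by exact_mod_cast k2
    have h3 : (a : ℝ) - b * L ≤ S := h2 (l', a, b) (by simp)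
    have hL : 0 ≤ L := by linarith
    refine k3.elim (fun k => ?_) fun ⟨⟨k4, k5⟩, k6⟩ => ?_
    · have : (b : ℝ) = 0 := by exact_mod_cast k
      rw [this, zero_mul, sub_zero] at k2' h3
      have : 0 < (a : ℝ) := by by_contra hn; nlinarith
      nlinarith
    have k4' : (l : ℝ) < l' := by exact_mod_cast k4
    have k5' : (4 : ℝ) ≤ l' * (a - b * l') := by exact_mod_cast k5
    rcases le_total L l' with h4 | h4
    · refine le_trans ?_ (mul_le_mul_of_nonneg_left h3 hL)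
      refine le_of_mul_le_mul_left ?_ (sub_pos.mpr k4')
      have e1 := mul_le_mul_of_nonneg_left k2' (sub_nonneg.mpr h4)
      have e2 := mul_le_mul_of_nonneg_left k5' (sub_nonneg.mpr h1)
      have e3 := mul_nonneg (mul_nonneg k1' (sub_nonneg.mpr h1))
        (mul_nonneg (sub_nonneg.mpr h4) (sub_pos.mpr k4').le)
      linarith
    · exact ih l' (by linarith) h4 (fun x hx => h2 x (List.mem_cons_of_mem _ hx)) k6

/-- Scaling of the integers of a certificate. -/
def sc (z : ℤ) : ℚ := z / 10000000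

/-- A slab of the acute region: end point, two multipliers, four points of tangency. -/
abbrev AC : Type := ℤ × ℤ × ℤ × ℤ × ℤ × ℤ × ℤ

/-- Admissibility. -/
def acOk (x : AC) : Bool := okc (sc x.2.2.2.1) && okc (sc x.2.2.2.2.1) &&
  okc (sc x.2.2.2.2.2.1) && okc (sc x.2.2.2.2.2.2)

/-- The affine bound of a slab. -/
def acCut (m0 m1 m2 m3 g : ℚ) (x : AC) : ℚ × ℚ × ℚ :=
  (sc x.1, val (sc x.2.2.2.1) (sc x.2.1 + sc x.2.2.1 * m0)
    + val (sc x.2.2.2.2.1) (sc x.2.1 + sc x.2.2.1 * m1)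
    + val (sc x.2.2.2.2.2.1) (sc x.2.1 + sc x.2.2.1 * m2)
    + val (sc x.2.2.2.2.2.2) (sc x.2.1 + sc x.2.2.1 * m3)
    - max (sc x.2.1 * 3.141592654) (sc x.2.1 * 3.141592653) - sc x.2.2.1 * g, sc x.2.2.1)

/-- The check of the acute region. -/
def acChk (m0 m1 m2 m3 g : ℚ) (C : List AC) : Bool :=
  decide (0 ≤ min (min m0 m1) (min m2 m3)) &&
    decide (0 < min (min m0 m1) (min m2 m3) * 3.141592653 - g) && C.all acOk &&
    chain (min (min m0 m1) (min m2 m3) * 3.141592653 - g) (C.map (acCut m0 m1 m2 m3 g))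

theorem ac_sound {m0 m1 m2 m3 g : ℚ} {C : List AC} (h : acChk m0 m1 m2 m3 g C = true)
    {e a b c : ℝ} (he : 0 < e) (ha : 0 < a) (hb : 0 < b) (hc : 0 < c) (hs : e + a + b + c = π)
    (ke : e ≤ π / 2 + arctan (1 / 2)) (ka : a ≤ π / 2 + arctan (1 / 2))
    (kb : b ≤ π / 2 + arctan (1 / 2)) (kc : c ≤ π / 2 + arctan (1 / 2)) :
    4 ≤ (m0 * e + m1 * a + m2 * b + m3 * c - g) * (cot e + cot a + cot b + cot c) := by
  simp only [acChk, Bool.and_eq_true, decide_eq_true_iff, List.all_eq_true] at h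
  obtain ⟨⟨⟨h0, h1⟩, h2⟩, h3⟩ := h
  refine chain_sound _ _ (by exact_mod_cast h1) ?_ ?_ h3
  · have h0' := (Rat.cast_le (K := ℝ)).mpr h0
    have c1 : (((3.141592653 : ℚ)) : ℝ) = 3.141592653 := by norm_num
    simp only [Rat.cast_min, Rat.cast_zero, Rat.cast_sub, Rat.cast_mul, c1] at h0' ⊢
    generalize hν : min (min (m0 : ℝ) m1) (min m2 m3) = ν at *
    have n0 : ν ≤ m0 := hν ▸ (min_le_left _ _).trans (min_le_left _ _)
    have n1 : ν ≤ m1 := hν ▸ (min_le_left _ _).trans (min_le_right _ _)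
    have n2 : ν ≤ m2 := hν ▸ (min_le_right _ _).trans (min_le_left _ _)
    have n3 : ν ≤ m3 := hν ▸ (min_le_right _ _).trans (min_le_right _ _)
    have := mul_le_mul_of_nonneg_left pi_b.1.le h0'
    rw [← hs] at this
    linarith [mul_le_mul_of_nonneg_right n0 he.le, mul_le_mul_of_nonneg_right n1 ha.le,
      mul_le_mul_of_nonneg_right n2 hb.le, mul_le_mul_of_nonneg_right n3 hc.le]
  · intro y hy
    obtain ⟨x, hx, rfl⟩ := List.mem_map.mp hy
    have k := h2 x hx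
    simp only [acOk, Bool.and_eq_true] at k
    obtain ⟨⟨⟨k0, k1⟩, k2⟩, k3⟩ := k
    have v0 := val_le k0 (sc x.2.1 + sc x.2.2.1 * m0) he ke
    have v1 := val_le k1 (sc x.2.1 + sc x.2.2.1 * m1) ha ka
    have v2 := val_le k2 (sc x.2.1 + sc x.2.2.1 * m2) hb kb
    have v3 := val_le k3 (sc x.2.1 + sc x.2.2.1 * m3) hc kc
    have c1 : (((3.141592653 : ℚ)) : ℝ) = 3.141592653 := by norm_num
    have c2 : (((3.141592654 : ℚ)) : ℝ) = 3.141592654 := by norm_num
    simp only [acCut, Rat.cast_max, Rat.cast_add, Rat.cast_sub, Rat.cast_mul, c1, c2]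
      at v0 v1 v2 v3 ⊢
    have h4 : (sc x.2.1 : ℝ) * π ≤
        max ((sc x.2.1 : ℝ) * 3.141592654) ((sc x.2.1 : ℝ) * 3.141592653) := by
      rcases le_total 0 (sc x.2.1 : ℝ) with h | h
      · exact (mul_le_mul_of_nonneg_left pi_b.2.le h).trans (le_max_left _ _)
      · exact (mul_le_mul_of_nonpos_left pi_b.1.le h).trans (le_max_right _ _)
    rw [← hs] at h4
    linarith

/-- A slab of an obtuse region: end point, two multipliers, three points of tangency. -/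
abbrev OC : Type := ℤ × ℤ × ℤ × ℤ × ℤ × ℤ

/-- Admissibility. -/
def obOk (w0 w1 w2 : ℚ) (x : OC) : Bool :=
  decide (sc x.2.2.2.1 ^ 2 ≤ sc x.2.1 + sc x.2.2.1 * w0) &&
    decide (sc x.2.2.2.2.1 ^ 2 ≤ sc x.2.1 + sc x.2.2.1 * w1) &&
    decide (sc x.2.2.2.2.2 ^ 2 ≤ sc x.2.1 + sc x.2.2.1 * w2)

/-- The affine bound of a slab. -/
def obCut (x : OC) : ℚ × ℚ × ℚ :=
  (sc x.1, 2 * (sc x.2.2.2.1 + sc x.2.2.2.2.1 + sc x.2.2.2.2.2) - sc x.2.1 - 1.0096, sc x.2.2.1)

/-- The check of the homogeneous inequality. -/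
def obChk' (w0 w1 w2 : ℚ) (C : List OC) : Bool :=
  decide (0 < min w0 (min w1 w2)) && C.all (obOk w0 w1 w2) &&
    chain (min w0 (min w1 w2)) (C.map obCut)

/-- The check of an obtuse region. -/
def obChk (mk m0 m1 m2 g : ℚ) (C : List OC) : Bool :=
  decide (0 ≤ mk) && decide (0 ≤ mk * 3.141592653 - g) &&
    obChk' (m0 - mk + (mk * 3.141592653 - g) / 1.1072) (m1 - mk + (mk * 3.141592653 - g) / 1.1072)
      (m2 - mk + (mk * 3.141592653 - g) / 1.1072) C

theorem inv_ge {u q x : ℝ} (h : u ^ 2 ≤ q) (hx : 0 < x) : 2 * u ≤ 1 / x + q * x := by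
  have h1 : 1 / x + u ^ 2 * x - 2 * u = (1 - u * x) ^ 2 / x := by field_simp; ring
  have h2 : 0 ≤ (1 - u * x) ^ 2 / x := by positivity
  linarith [mul_le_mul_of_nonneg_right h hx.le]

theorem ob_sound' {w0 w1 w2 : ℚ} {C : List OC} (h : obChk' w0 w1 w2 C = true) {x y z : ℝ}
    (hx : 0 < x) (hy : 0 < y) (hz : 0 < z) (hs : x + y + z = 1) :
    0 < w0 * x + w1 * y + w2 * z ∧
      4 ≤ (w0 * x + w1 * y + w2 * z) * (1 / x + 1 / y + 1 / z - 1.0096) := by
  simp only [obChk', Bool.and_eq_true, decide_eq_true_iff, List.all_eq_true] at h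
  obtain ⟨⟨h1, h2⟩, h3⟩ := h
  have h1' : (0 : ℝ) < (min w0 (min w1 w2) : ℚ) := by exact_mod_cast h1
  have h4 : ((min w0 (min w1 w2) : ℚ) : ℝ) ≤ w0 * x + w1 * y + w2 * z := by
    push_cast
    generalize hν : min (w0 : ℝ) (min w1 w2) = ν at *
    have n0 : ν ≤ w0 := hν ▸ min_le_left _ _
    have n1 : ν ≤ w1 := hν ▸ (min_le_right _ _).trans (min_le_left _ _)
    have n2 : ν ≤ w2 := hν ▸ (min_le_right _ _).trans (min_le_right _ _)
    have : ν = ν * x + ν * y + ν * z := by rw [← mul_add, ← mul_add, hs, mul_one]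
    linarith [mul_le_mul_of_nonneg_right n0 hx.le, mul_le_mul_of_nonneg_right n1 hy.le,
      mul_le_mul_of_nonneg_right n2 hz.le]
  refine ⟨by linarith, chain_sound _ _ h1' h4 ?_ h3⟩
  intro p hp
  obtain ⟨t, ht, rfl⟩ := List.mem_map.mp hp
  have k := h2 t ht
  simp only [obOk, Bool.and_eq_true, decide_eq_true_iff] at k
  obtain ⟨⟨k0, k1⟩, k2⟩ := k
  have v0 := inv_ge (u := sc t.2.2.2.1) (q := sc t.2.1 + sc t.2.2.1 * w0) (by exact_mod_cast k0) hx
  have v1 := inv_ge (u := sc t.2.2.2.2.1) (q := sc t.2.1 + sc t.2.2.1 * w1)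
    (by exact_mod_cast k1) hy
  have v2 := inv_ge (u := sc t.2.2.2.2.2) (q := sc t.2.1 + sc t.2.2.1 * w2)
    (by exact_mod_cast k2) hz
  have e : (sc t.2.1 : ℝ) = sc t.2.1 * x + sc t.2.1 * y + sc t.2.1 * z := by
    rw [← mul_add, ← mul_add, hs, mul_one]
  simp only [obCut]
  push_cast
  norm_num at v0 v1 v2 ⊢
  linarith

theorem ob_sound {mk m0 m1 m2 g : ℚ} {C : List OC} (h : obChk mk m0 m1 m2 g C = true)
    {k a b c : ℝ} (ha : 0 < a) (hb : 0 < b) (hc : 0 < c) (hs : k + a + b + c = π)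
    (hk : π / 2 + arctan (1 / 2) ≤ k) :
    4 ≤ (mk * k + m0 * a + m1 * b + m2 * c - g) * (cot k + cot a + cot b + cot c) := by
  simp only [obChk, Bool.and_eq_true, decide_eq_true_iff] at h
  obtain ⟨⟨h0, h1⟩, h2⟩ := h
  obtain ⟨s, hs'⟩ : ∃ s, s = a + b + c := ⟨_, rfl⟩
  have s0 : 0 < s := by linarith
  have s1 : s ≤ 1.1072 := by linarith [half_b.1, pi_b.2]
  obtain ⟨h3, h4⟩ := ob_sound' h2 (div_pos ha s0) (div_pos hb s0) (div_pos hc s0)
    (by rw [← add_div, ← add_div, ← hs', div_self s0.ne'])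
  have h0' : (0 : ℝ) ≤ mk := by exact_mod_cast h0
  have h1' : (0 : ℝ) ≤ mk * 3.141592653 - g := by
    have := (Rat.cast_le (K := ℝ)).mpr h1
    push_cast at this
    norm_num at this ⊢
    exact this
  have c1 : (((3.141592653 : ℚ)) : ℝ) = 3.141592653 := by norm_num
  have c2 : (((1.1072 : ℚ)) : ℝ) = 1.1072 := by norm_num
  simp only [Rat.cast_add, Rat.cast_sub, Rat.cast_mul, Rat.cast_div, c1, c2] at h3 h4
  obtain ⟨l, hl⟩ : ∃ l : ℝ, l = (mk * 3.141592653 - g) / 1.1072 := ⟨_, rfl⟩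
  rw [← hl] at h3 h4
  have l0 : 0 ≤ l := hl ▸ by positivity
  have ek : k = π - s := by linarith
  obtain ⟨W, hW⟩ : ∃ W, W = (m0 - mk + l) * (a / s) + (m1 - mk + l) * (b / s)
    + (m2 - mk + l) * (c / s) := ⟨_, rfl⟩
  obtain ⟨X, hX⟩ : ∃ X : ℝ, X = 1 / (a / s) + 1 / (b / s) + 1 / (c / s) - 1.0096 := ⟨_, rfl⟩
  rw [← hW] at h3 h4
  rw [← hX] at h4
  have X0 : 0 < X := by by_contra hn; nlinarith
  have e1 : s * W ≤ mk * k + m0 * a + m1 * b + m2 * c - g := by
    have : s * W = (m0 - mk + l) * a + (m1 - mk + l) * b + (m2 - mk + l) * c := by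
      rw [hW]; field_simp
    have e2 : l * 1.1072 = mk * 3.141592653 - g := by rw [hl]; field_simp
    have e3 := mul_le_mul_of_nonneg_left s1 l0
    have e4 := mul_le_mul_of_nonneg_left pi_b.1.le h0'
    rw [this, ek]
    rw [hs'] at e3 ⊢
    linarith
  have e2 : X / s ≤ cot k + cot a + cot b + cot c := by
    have e3 : X / s = 1 / a + 1 / b + 1 / c - 1 / s - 0.0096 / s := by
      rw [hX]; field_simp; ring
    have e4 : cot k = -cot s := by
      rw [ek, cot_eq_cos_div_sin, cot_eq_cos_div_sin, cos_pi_sub, sin_pi_sub, neg_div]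
    have t0 := cot_le3 s0 (by linarith)
    have t1 := T32.cot_ge ha (by linarith)
    have t2 := T32.cot_ge hb (by linarith)
    have t3 := T32.cot_ge hc (by linarith)
    have t4 : a ^ 3 + b ^ 3 + c ^ 3 ≤ s ^ 3 := by
      have : s ^ 3 = a ^ 3 + b ^ 3 + c ^ 3 + 3 * ((a + b) * (b + c) * (c + a)) := by
        rw [hs']; ring
      have : 0 < (a + b) * (b + c) * (c + a) := by positivity
      linarith
    have t5 : 2 / 315 * s ^ 3 ≤ 0.0096 / s := by
      rw [le_div_iff₀ s0]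
      have : s ^ 4 ≤ 1.1072 ^ 4 := pow_le_pow_left₀ s0.le s1 4
      nlinarith
    rw [e3, e4]
    linarith
  calc (4 : ℝ) ≤ (s * W) * (X / s) := by
        rwa [show s * W * (X / s) = W * X by field_simp]
    _ ≤ _ := mul_le_mul e1 e2 (by positivity) (le_trans (by positivity) e1)

/-- A certificate for a face inequality. -/
abbrev FC : Type := List AC × List OC × List OC × List OC × List OC

/-- The complete check. -/
def fChk (m1 m2 m3 g : ℚ) (C : FC) : Bool :=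
  acChk (m1 + m2 + m3) m1 m2 m3 g C.1 && obChk (m1 + m2 + m3) m1 m2 m3 g C.2.1 &&
    obChk m1 (m1 + m2 + m3) m2 m3 g C.2.2.1 && obChk m2 (m1 + m2 + m3) m1 m3 g C.2.2.2.1 &&
    obChk m3 (m1 + m2 + m3) m1 m2 g C.2.2.2.2

theorem f_sound {m1 m2 m3 g : ℕ} {C : FC}
    (h : fChk (m1 / 100000) (m2 / 100000) (m3 / 100000) (g / 100000) C = true) :
    FaceOK m1 m2 m3 g := by
  simp only [fChk, Bool.and_eq_true] at h
  obtain ⟨⟨⟨⟨h0, h1⟩, h2⟩, h3⟩, h4⟩ := h
  intro e a b c he ha hb hc hs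
  rcases le_total e (π / 2 + arctan (1 / 2)) with ke | ke
  swap
  · have := ob_sound h1 ha hb hc hs ke
    push_cast at this
    linarith
  rcases le_total a (π / 2 + arctan (1 / 2)) with ka | ka
  swap
  · have := ob_sound h2 he hb hc (by linarith) ka
    push_cast at this
    linarith
  rcases le_total b (π / 2 + arctan (1 / 2)) with kb | kb
  swap
  · have := ob_sound h3 he ha hc (by linarith) kb
    push_cast at this
    linarith
  rcases le_total c (π / 2 + arctan (1 / 2)) with kc | kc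
  swap
  · have := ob_sound h4 he ha hb (by linarith) kc
    push_cast at this
    linarith
  have := ac_sound h0 he ha hb hc hs ke ka kb kc
  push_cast at this
  linarith

theorem FaceOK.swap12 {m1 m2 m3 g : ℝ} (h : FaceOK m1 m2 m3 g) : FaceOK m2 m1 m3 g := by
  intro e a b c he ha hb hc hs
  have := h e b a c he hb ha hc (by linarith)
  linarith

theorem FaceOK.swap23 {m1 m2 m3 g : ℝ} (h : FaceOK m1 m2 m3 g) : FaceOK m1 m3 m2 g := by
  intro e a b c he ha hb hc hs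
  have := h e a c b he ha hc hb (by linarith)
  linarith

end Pool.Agent.MP_2ab689_gt.E11
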