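import Mathlib.Analysis.SpecialFunctions.Trigonometric.ArctanDeriv
import Pool.Agent.MP_2ab689_gt.T32.Trig
import Pool.Agent.MP_2ab689_gt.E11.Defs

/-!
Bounds for the arctangent and affine lower bounds for the cotangent.
-/

namespace Pool.Agent.MP_2ab689_gt.E11

open Real

theorem mono_of {f g : ℝ → ℝ} (hd : ∀ x, HasDerivAt f (g x) x) {a b : ℝ} (hab : a ≤ b)
    (hg : ∀ x, a ≤ x → x ≤ b → 0 ≤ g x) : f a ≤ f b :=
  monotoneOn_of_deriv_nonneg (convex_Icc a b) (f := f)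
    (fun y _ => (hd y).continuousAt.continuousWithinAt)
    (fun y _ => (hd y).differentiableAt.differentiableWithinAt)
    (fun y hy => by
      rw [(hd y).deriv]
      exact hg y (interior_subset hy).1 (interior_subset hy).2)
    ⟨le_rfl, hab⟩ ⟨hab, le_rfl⟩ hab

theorem atan_pos {x : ℝ} (hx : 0 ≤ x) :
    x - x ^ 3 / 3 + x ^ 5 / 5 - x ^ 7 / 7 + x ^ 9 / 9 - x ^ 11 / 11 ≤ arctan x ∧
    arctan x ≤ x - x ^ 3 / 3 + x ^ 5 / 5 - x ^ 7 / 7 + x ^ 9 / 9 - x ^ 11 / 11 + x ^ 13 / 13 := by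
  have hP : ∀ y : ℝ, HasDerivAt
      (fun x : ℝ => x - x ^ 3 / 3 + x ^ 5 / 5 - x ^ 7 / 7 + x ^ 9 / 9 - x ^ 11 / 11)
      (1 - y ^ 2 + y ^ 4 - y ^ 6 + y ^ 8 - y ^ 10) y := fun y =>
    ((((((hasDerivAt_id' y).sub ((hasDerivAt_pow 3 y).div_const 3)).add
      ((hasDerivAt_pow 5 y).div_const 5)).sub ((hasDerivAt_pow 7 y).div_const 7)).add
      ((hasDerivAt_pow 9 y).div_const 9)).sub ((hasDerivAt_pow 11 y).div_const 11)).congr_deriv
      (by push_cast; ring)
  have key : ∀ y : ℝ, 1 / (1 + y ^ 2) - (1 - y ^ 2 + y ^ 4 - y ^ 6 + y ^ 8 - y ^ 10) =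
      y ^ 12 / (1 + y ^ 2) := fun y => by field_simp; ring
  constructor
  · have := mono_of (fun y => (hasDerivAt_arctan y).sub (hP y)) hx
      (fun y _ _ => by rw [key]; positivity)
    simp only [Pi.sub_apply, arctan_zero] at this
    linarith
  · have := mono_of (fun y => (((hasDerivAt_pow 13 y).div_const 13).sub
      ((hasDerivAt_arctan y).sub (hP y)))) hx (fun y _ _ => by
        rw [key]
        have : y ^ 12 / (1 + y ^ 2) ≤ y ^ 12 := div_le_self (by positivity) (by nlinarith)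
        push_cast
        linarith)
    simp only [Pi.sub_apply, arctan_zero] at this
    linarith

/-- A polynomial approximation of the arctangent. -/
def aP (x : ℚ) : ℚ := x - x ^ 3 / 3 + x ^ 5 / 5 - x ^ 7 / 7 + x ^ 9 / 9 - x ^ 11 / 11

/-- The error of the approximation. -/
def aE (x : ℚ) : ℚ := |x| ^ 13 / 13

theorem atan_bd (x : ℚ) : ((aP x - aE x : ℚ) : ℝ) ≤ arctan x ∧ arctan x ≤ ((aP x + aE x : ℚ) : ℝ) := by
  simp only [aP, aE]
  push_cast
  generalize (x : ℝ) = y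
  rcases le_total 0 y with h | h
  · obtain ⟨h1, h2⟩ := atan_pos h
    have : 0 ≤ y ^ 13 := by positivity
    rw [abs_of_nonneg h]
    constructor <;> linarith
  · obtain ⟨h1, h2⟩ := atan_pos (neg_nonneg.mpr h)
    have : 0 ≤ (-y) ^ 13 := pow_nonneg (neg_nonneg.mpr h) _
    rw [arctan_neg] at h1 h2
    rw [abs_of_nonpos h]
    constructor <;> linarith

/-- The multiple of `π` in the reduction of the argument. -/
def tK (c : ℚ) : ℚ := if c ≤ 5 / 12 then 1 / 2 else if 12 / 5 ≤ c then 0 else 1 / 4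

/-- The reduced argument. -/
def tX (c : ℚ) : ℚ := if c ≤ 5 / 12 then -c else if 12 / 5 ≤ c then 1 / c else (1 - c) / (1 + c)

theorem red {c : ℚ} (hc : 0 ≤ c) : π / 2 - arctan c = tK c * π + arctan (tX c) ∧ (0 : ℝ) ≤ tK c := by
  have hc' : (0 : ℝ) ≤ c := by exact_mod_cast hc
  unfold tK tX
  split_ifs with h1 h2
  · push_cast
    rw [arctan_neg]
    exact ⟨by ring, by norm_num⟩
  · have : (0 : ℝ) < c := by exact_mod_cast (by linarith : 0 < c)
    push_cast
    rw [one_div, arctan_inv_of_pos this]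
    exact ⟨by ring, le_rfl⟩
  · push_cast
    have h3 : (0 : ℝ) < 1 + c := by linarith
    have h4 := arctan_add (x := c) (y := (1 - c) / (1 + c)) (by
      rw [← mul_div_assoc, div_lt_one h3]; nlinarith)
    have h5 : ((c : ℝ) + (1 - c) / (1 + c)) / (1 - c * ((1 - c) / (1 + c))) = 1 := by
      rw [div_eq_one_iff_eq]
      · field_simp; ring
      · have : (1 : ℝ) - c * ((1 - c) / (1 + c)) = (1 + c ^ 2) / (1 + c) := by field_simp; ring
        rw [this]; positivity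
    rw [h5, arctan_one] at h4
    exact ⟨by linarith, by norm_num⟩

/-- Lower bound of the point of tangency. -/
def tLo (c : ℚ) : ℚ := tK c * 3.141592653 + (aP (tX c) - aE (tX c))

/-- Upper bound of the point of tangency. -/
def tHi (c : ℚ) : ℚ := tK c * 3.141592654 + (aP (tX c) + aE (tX c))

theorem pi_b : (3.141592653 : ℝ) < π ∧ π < 3.141592654 :=
  ⟨lt_trans (by norm_num) pi_gt_d20, lt_trans pi_lt_d20 (by norm_num)⟩

theorem t_bd {c : ℚ} (hc : 0 ≤ c) :
    (tLo c : ℝ) ≤ π / 2 - arctan c ∧ π / 2 - arctan c ≤ (tHi c : ℝ) := by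
  obtain ⟨h1, h2⟩ := red hc
  obtain ⟨h3, h4⟩ := atan_bd (tX c)
  have h5 := mul_le_mul_of_nonneg_left pi_b.1.le h2
  have h6 := mul_le_mul_of_nonneg_left pi_b.2.le h2
  rw [h1, tLo, tHi, Rat.cast_add, Rat.cast_add (_ * _), Rat.cast_mul, Rat.cast_mul]
  norm_num at h5 h6 ⊢
  push_cast at h3 h4
  constructor <;> linarith

theorem half_b : (0.463637 : ℝ) ≤ arctan (1 / 2) ∧ arctan (1 / 2) ≤ 0.463658 := by
  obtain ⟨h1, h2⟩ := atan_pos (x := 1 / 2) (by norm_num)
  constructor <;> linarith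

theorem atan_cot {b : ℝ} (h0 : 0 < b) (h1 : b < π) : arctan (cot b) = π / 2 - b := by
  rw [← tan_inv_eq_cot, ← tan_pi_div_two_sub]
  exact arctan_tan (by linarith) (by linarith)

theorem tangent {c b : ℝ} (hc : 0 ≤ c)
    (hv : c + 1 / 2 ≤ (1 + c ^ 2) * (arctan (1 / 2) + arctan c)) (h0 : 0 < b)
    (h1 : b ≤ π / 2 + arctan (1 / 2)) :
    c + (1 + c ^ 2) * (π / 2 - arctan c) ≤ cot b + (1 + c ^ 2) * b := by
  have e := atan_cot h0 (by linarith [half_b.2, pi_b.1])
  have hu : -(1 / 2) ≤ cot b := by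
    rw [← arctan_le_arctan_iff, arctan_neg, e]; linarith
  have eb : b = π / 2 - arctan (cot b) := by linarith
  generalize cot b = u at *
  have hd : ∀ y : ℝ, HasDerivAt (fun u => u - (1 + c ^ 2) * arctan u)
      ((y ^ 2 - c ^ 2) / (1 + y ^ 2)) y := fun y =>
    ((hasDerivAt_id' y).sub ((hasDerivAt_arctan y).const_mul _)).congr_deriv (by field_simp; ring)
  rw [eb]
  rcases le_total c u with h | h
  · have := mono_of hd h fun y a _ => div_nonneg (by nlinarith) (by positivity)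
    linarith
  rcases le_total (-c) u with h' | h'
  · have := mono_of (fun y => (hd y).neg) h fun y a b => by
      rw [← neg_div]; exact div_nonneg (by nlinarith) (by positivity)
    simp only [Pi.neg_apply] at this
    linarith
  · have := mono_of hd hu fun y _ a => div_nonneg (by nlinarith) (by positivity)
    rw [arctan_neg] at this
    linarith

/-- Admissible point of tangency. -/
def okc (c : ℚ) : Bool := decide (0 ≤ c) && decide (c + 1 / 2 ≤ (1 + c ^ 2) * (2.03443 - tHi c))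

/-- Lower bound of `cot b + q b`. -/
def val (c q : ℚ) : ℚ := c + (1 + c ^ 2) * tLo c - max 0 (1 + c ^ 2 - q) * 2.03446

theorem val_le {c : ℚ} (h : okc c = true) (q : ℚ) {b : ℝ} (h0 : 0 < b)
    (h1 : b ≤ π / 2 + arctan (1 / 2)) : (val c q : ℝ) ≤ cot b + q * b := by
  simp only [okc, Bool.and_eq_true, decide_eq_true_iff] at h
  obtain ⟨hc, hv⟩ := h
  have hv' : (c : ℝ) + 1 / 2 ≤ (1 + c ^ 2) * (2.03443 - tHi c) := by
    have := (Rat.cast_le (K := ℝ)).mpr hv
    push_cast at this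
    norm_num at this ⊢
    exact this
  obtain ⟨t1, t2⟩ := t_bd hc
  have hp : (0 : ℝ) ≤ 1 + c ^ 2 := by positivity
  have h2 := tangent (c := c) (by exact_mod_cast hc) (hv'.trans (mul_le_mul_of_nonneg_left
    (by linarith [half_b.1, pi_b.1]) hp)) h0 h1
  have h3 := mul_le_mul_of_nonneg_left t1 hp
  have h4 : b ≤ 2.03446 := by linarith [half_b.2, pi_b.2]
  have h5 : ((1 : ℝ) + c ^ 2 - q) * b ≤ max 0 (1 + (c : ℝ) ^ 2 - q) * 2.03446 :=
    (mul_le_mul_of_nonneg_right (le_max_right _ _) h0.le).trans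
      (mul_le_mul_of_nonneg_left h4 (le_max_left _ _))
  rw [val]
  push_cast
  norm_num at h5 ⊢
  linarith

theorem sin_ge7 {x : ℝ} (hx : 0 ≤ x) : x - x ^ 3 / 6 + x ^ 5 / 120 - x ^ 7 / 5040 ≤ sin x := by
  have := T32.step (f := fun x => sin x - (x - x ^ 3 / 6 + x ^ 5 / 120 - x ^ 7 / 5040))
    (g := fun x => cos x - (1 - x ^ 2 / 2 + x ^ 4 / 24 - x ^ 6 / 720)) (fun y =>
      ((hasDerivAt_sin y).sub ((((hasDerivAt_id' y).sub
        ((hasDerivAt_pow 3 y).div_const 6)).add ((hasDerivAt_pow 5 y).div_const 120)).sub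
        ((hasDerivAt_pow 7 y).div_const 5040))).congr_deriv (by push_cast; ring)) (by simp)
    (fun y hy => sub_nonneg.mpr (T32.cos_ge6 hy)) hx
  linarith

theorem cot_le3 {x : ℝ} (h0 : 0 < x) (h1 : x ≤ 6 / 5) : cot x ≤ 1 / x - x / 3 - x ^ 3 / 45 := by
  have hs : 0 < sin x := sin_pos_of_pos_of_lt_pi h0 (by linarith [pi_gt_three])
  have hy : x ^ 2 ≤ 36 / 25 := by nlinarith
  have hy0 : 0 < x ^ 2 := by positivity
  have e : 1 / x - x / 3 - x ^ 3 / 45 = (1 - x ^ 2 / 3 - x ^ 4 / 45) / x := by field_simp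
  rw [e, cot_eq_cos_div_sin, div_le_div_iff₀ hs h0]
  have h2 : 0 ≤ 1 - x ^ 2 / 3 - x ^ 4 / 45 := by nlinarith
  refine (mul_le_mul_of_nonneg_right (T32.cos_le4 h0.le) h0.le).trans
    (le_trans ?_ (mul_le_mul_of_nonneg_left (sin_ge7 h0.le) h2))
  have h3 : 0 ≤ x ^ 7 * (11 / 15120 - 1 / 8400 * x ^ 2 + x ^ 4 / 226800) :=
    mul_nonneg (by positivity) (by nlinarith)
  nlinarith

end Pool.Agent.MP_2ab689_gt.E11
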